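import Mathlib

/-!
# The entropy of a refinement all of whose mass sits in one part per cell
-/

set_option autoImplicit false

open Finset

namespace Pool.Agent.Helper48.MX

theorem negMulLog_le {x M t : ℝ} (hx : 0 ≤ x) (hM : 0 < M) (ht : 0 < t) :
    Real.negMulLog x ≤ -(x * Real.log M) + x * Real.log t + M / t - x := by
  rcases hx.eq_or_lt with h | h
  · rw [← h]
    simp only [Real.negMulLog_zero, zero_mul, neg_zero, zero_add, sub_zero]
    positivity
  · have h1 : Real.log (M / (x * t)) ≤ M / (x * t) - 1 := Real.log_le_sub_one_of_pos (by positivity)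
    rw [Real.log_div hM.ne' (by positivity), Real.log_mul h.ne' ht.ne'] at h1
    have h2 := mul_le_mul_of_nonneg_left h1 h.le
    have h3 : x * (M / (x * t) - 1) = M / t - x := by
      field_simp
    rw [h3] at h2
    unfold Real.negMulLog
    nlinarith

/-- one cell -/
theorem cell_step {r : ℕ} (hr : 2 ≤ r) {m : ℕ → ℝ} (hm : ∀ i, 0 ≤ m i) {i₀ : ℕ} (hi : i₀ < r)
    {κ : ℝ} (hκ : 0 < κ) :
    ∑ i ∈ range r, Real.negMulLog (m i) ≤ Real.negMulLog (∑ i ∈ range r, m i) +
      (∑ i ∈ range r, m i - m i₀) * Real.log ((r - 1) / κ) + κ * ∑ i ∈ range r, m i := by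
  have hr1 : (0 : ℝ) < r - 1 := by
    have : (2 : ℝ) ≤ r := by exact_mod_cast hr
    linarith
  have hmem : i₀ ∈ range r := mem_range.2 hi
  set M : ℝ := ∑ i ∈ range r, m i with hMdef
  have hM0 : 0 ≤ M := Finset.sum_nonneg fun i _ => hm i
  rcases hM0.eq_or_lt with hM | hM
  · have hz : ∀ i ∈ range r, m i = 0 := (Finset.sum_eq_zero_iff_of_nonneg fun i _ => hm i).1
      (by rw [← hMdef, ← hM])
    rw [Finset.sum_eq_zero fun i h => by rw [hz i h, Real.negMulLog_zero], ← hM, hz i₀ hmem]
    simp
  · have hsplit : ∀ f : ℕ → ℝ, ∑ i ∈ range r, f i = f i₀ + ∑ i ∈ (range r).erase i₀, f i :=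
      fun f => (Finset.add_sum_erase (range r) f hmem).symm
    have hbig := negMulLog_le (hm i₀) hM one_pos
    rw [Real.log_one, mul_zero, div_one] at hbig
    have hsmall : ∑ i ∈ (range r).erase i₀, Real.negMulLog (m i) ≤
        ∑ i ∈ (range r).erase i₀, (-(m i * Real.log M) + m i * Real.log ((r - 1) / κ) +
          M / ((r - 1) / κ) - m i) :=
      Finset.sum_le_sum fun i _ => negMulLog_le (hm i) hM (div_pos hr1 hκ)
    have hcard : (((range r).erase i₀).card : ℝ) = r - 1 := by
      rw [Finset.card_erase_of_mem hmem, card_range, Nat.cast_sub (by omega), Nat.cast_one]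
    have hS : ∑ i ∈ (range r).erase i₀, m i = M - m i₀ := by
      have := hsplit m
      linarith
    have hsmall2 : ∑ i ∈ (range r).erase i₀, (-(m i * Real.log M) + m i * Real.log ((r - 1) / κ) +
          M / ((r - 1) / κ) - m i) =
        -((M - m i₀) * Real.log M) + (M - m i₀) * Real.log ((r - 1) / κ) + κ * M - (M - m i₀) := by
      rw [Finset.sum_sub_distrib, Finset.sum_add_distrib, Finset.sum_add_distrib,
        Finset.sum_neg_distrib, ← Finset.sum_mul, ← Finset.sum_mul, hS, Finset.sum_const,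
        nsmul_eq_mul, hcard]
      have : (r - 1 : ℝ) * (M / ((r - 1) / κ)) = κ * M := by field_simp
      rw [this]
    rw [hsplit fun i => Real.negMulLog (m i)]
    have hMM : Real.negMulLog M = -(M * Real.log M) := by
      unfold Real.negMulLog
      ring
    rw [hMM]
    nlinarith

/-- **Entropy step.**  The fine cells are `J + i * N`, `i < r`, `J < N`; all of the mass of the
coarse cell `J` but a part of total mass at most `κ` is in the fine cell `J + i₀ J * N`. -/
theorem entropy_step {r N : ℕ} (hr : 2 ≤ r) {m : ℕ → ℝ} (hm : ∀ i, 0 ≤ m i) {M : ℕ → ℝ}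
    (hM : ∀ J < N, M J = ∑ i ∈ range r, m (J + i * N)) (h1 : ∑ J ∈ range N, M J ≤ 1)
    {i₀ : ℕ → ℕ} (hi : ∀ J < N, i₀ J < r) {κ : ℝ} (hκ0 : 0 ≤ κ) (hκ1 : κ ≤ 1)
    (h : ∑ J ∈ range N, (M J - m (J + i₀ J * N)) ≤ κ) :
    ∑ i ∈ range (r * N), Real.negMulLog (m i) ≤ ∑ J ∈ range N, Real.negMulLog (M J) +
      (κ + κ * Real.log ((r - 1) / κ)) := by
  have hr1 : (1 : ℝ) ≤ r - 1 := by
    have : (2 : ℝ) ≤ r := by exact_mod_cast hr
    linarith
  have hsum : ∑ i ∈ range (r * N), Real.negMulLog (m i) =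
      ∑ J ∈ range N, ∑ i ∈ range r, Real.negMulLog (m (J + i * N)) := by
    have hgen : ∀ (f : ℕ → ℝ) (r : ℕ), ∑ i ∈ range (r * N), f i =
        ∑ J ∈ range N, ∑ i ∈ range r, f (J + i * N) := by
      intro f r
      induction r with
      | zero => simp
      | succ r ih =>
        rw [Nat.succ_mul, Finset.sum_range_add, ih, ← Finset.sum_add_distrib]
        refine Finset.sum_congr rfl fun J _ => ?_
        rw [Finset.sum_range_succ, add_comm (r * N) J]
    exact hgen _ r
  rw [hsum]
  rcases hκ0.eq_or_lt with hκ | hκ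
  · -- no mass outside
    have hnn : ∀ J ∈ range N, 0 ≤ M J - m (J + i₀ J * N) := by
      intro J hJ
      rw [mem_range] at hJ
      rw [hM J hJ, sub_nonneg]
      exact Finset.single_le_sum (f := fun i => m (J + i * N)) (fun i _ => hm _)
        (mem_range.2 (hi J hJ))
    have hz := (Finset.sum_eq_zero_iff_of_nonneg hnn).1
      (le_antisymm (by rw [hκ]; exact h) (Finset.sum_nonneg hnn))
    rw [← hκ, zero_mul, add_zero, add_zero]
    refine le_of_eq (Finset.sum_congr rfl fun J hJ => ?_)
    have hJ' := mem_range.1 hJ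
    have h2 : M J = m (J + i₀ J * N) := by linarith [hz J hJ]
    have h3 : ∀ i ∈ (range r).erase (i₀ J), m (J + i * N) = 0 := by
      have h4 := Finset.add_sum_erase (range r) (fun i => m (J + i * N)) (mem_range.2 (hi J hJ'))
      rw [← hM J hJ', h2] at h4
      exact (Finset.sum_eq_zero_iff_of_nonneg fun i _ => hm _).1 (by linarith)
    rw [← Finset.add_sum_erase (range r) (fun i => Real.negMulLog (m (J + i * N)))
      (mem_range.2 (hi J hJ')), h2, Finset.sum_eq_zero fun i h => by
        rw [h3 i h, Real.negMulLog_zero], add_zero]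
  · have hstep : ∀ J ∈ range N, ∑ i ∈ range r, Real.negMulLog (m (J + i * N)) ≤
        Real.negMulLog (M J) + (M J - m (J + i₀ J * N)) * Real.log ((r - 1) / κ) + κ * M J := by
      intro J hJ
      have h2 := cell_step hr (m := fun i => m (J + i * N)) (fun i => hm _)
        (hi J (mem_range.1 hJ)) hκ
      rw [← hM J (mem_range.1 hJ)] at h2
      exact h2
    refine (Finset.sum_le_sum hstep).trans ?_
    rw [Finset.sum_add_distrib, Finset.sum_add_distrib, ← Finset.sum_mul, ← Finset.mul_sum]
    have hlog : 0 ≤ Real.log ((r - 1) / κ) := Real.log_nonneg (by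
      rw [le_div_iff₀ hκ]
      linarith)
    nlinarith [mul_le_mul_of_nonneg_right h hlog]

end Pool.Agent.Helper48.MX
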