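import Mathlib
import Pool.Agent.Helper48.MX.Step

/-!
# Arcs of length `r ^ (-W)` and the entropy step for `x r`-invariant measures
-/

set_option autoImplicit false

open MeasureTheory Finset

namespace Pool.Agent.Helper48.MX

/-- the circle `ℝ / ℤ` -/
abbrev Tor := AddCircle (1 : ℝ)

/-- the arc `[i / r ^ W, (i + 1) / r ^ W)` of the circle -/
def arcB (r W i : ℕ) : Set Tor :=
  (fun t : ℝ => (t : Tor)) '' Set.Ico ((i : ℝ) / (r : ℝ) ^ W) (((i : ℝ) + 1) / (r : ℝ) ^ W)

/-- the index of the cell of length `r ^ (-W)` of the real number `x` modulo one -/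
noncomputable def cellB (r W : ℕ) (x : ℝ) : ℕ := ⌊(r : ℝ) ^ W * Int.fract x⌋₊

/-- the index of the arc of length `r ^ (-W)` -/
noncomputable def idxB (r W : ℕ) (x : Tor) : ℕ :=
  ⌊(r : ℝ) ^ W * (AddCircle.equivIco (1 : ℝ) 0 x : ℝ)⌋₊

theorem idxB_coe (r W : ℕ) (y : ℝ) : idxB r W (y : Tor) = cellB r W y := by
  unfold idxB cellB
  have := AddCircle.coe_equivIco_mk_apply (p := (1 : ℝ)) y
  rw [div_one, mul_one] at this
  rw [this]

theorem measurable_idxB (r W : ℕ) : Measurable (idxB r W) := by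
  unfold idxB
  refine Nat.measurable_floor.comp (measurable_const.mul ?_)
  exact measurable_subtype_coe.comp (AddCircle.measurableEquivIco (1 : ℝ) 0).measurable

variable {r : ℕ}

theorem cellB_lt (hr : 1 ≤ r) (W : ℕ) (x : ℝ) : cellB r W x < r ^ W := by
  unfold cellB
  rw [Nat.floor_lt (mul_nonneg (by positivity) (Int.fract_nonneg _))]
  push_cast
  have := Int.fract_lt_one x
  have hr' : (1 : ℝ) ≤ r := by exact_mod_cast hr
  have h2 : (0 : ℝ) < (r : ℝ) ^ W := by positivity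
  nlinarith

theorem idxB_lt (hr : 1 ≤ r) (W : ℕ) (x : Tor) : idxB r W x < r ^ W := by
  obtain ⟨y, rfl⟩ := QuotientAddGroup.mk_surjective x
  have := cellB_lt hr W y
  rwa [← idxB_coe] at this

theorem mem_arcB_iff (hr : 1 ≤ r) (W i : ℕ) (x : Tor) : x ∈ arcB r W i ↔ idxB r W x = i % r ^ W := by
  have hr' : (1 : ℝ) ≤ r := by exact_mod_cast hr
  have h2 : (0 : ℝ) < (r : ℝ) ^ W := by positivity
  constructor
  · rintro ⟨t, ht, rfl⟩
    show idxB r W (t : Tor) = _
    rw [idxB_coe]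
    obtain ⟨h3, h4⟩ := ht
    rw [div_le_iff₀ h2] at h3
    rw [lt_div_iff₀ h2] at h4
    have hdm := Nat.div_add_mod i (r ^ W)
    obtain ⟨a, ha⟩ : ∃ a, a = i / r ^ W := ⟨_, rfl⟩
    obtain ⟨b, hb⟩ : ∃ b, b = i % r ^ W := ⟨_, rfl⟩
    have hblt : b < r ^ W := by rw [hb]; exact Nat.mod_lt _ (by positivity)
    rw [← ha, ← hb] at hdm
    have hi : (i : ℝ) = (r : ℝ) ^ W * a + b := by rw [← hdm]; push_cast; ring
    have hb1 : (b : ℝ) + 1 ≤ (r : ℝ) ^ W := by exact_mod_cast hblt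
    have hb0 : (0 : ℝ) ≤ b := Nat.cast_nonneg b
    have hfl : ⌊t⌋ = (a : ℤ) := by
      rw [Int.floor_eq_iff]
      push_cast
      constructor <;> nlinarith
    have hfr : Int.fract t = t - a := by
      rw [← Int.self_sub_floor, hfl]
      push_cast
      ring
    unfold cellB
    rw [← hb, Nat.floor_eq_iff (mul_nonneg h2.le (Int.fract_nonneg t)), hfr]
    constructor <;> nlinarith
  · intro h
    obtain ⟨y, rfl⟩ := QuotientAddGroup.mk_surjective x
    have h3 : cellB r W y = i % r ^ W := by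
      rw [← idxB_coe]
      exact h
    unfold cellB at h3
    rw [Nat.floor_eq_iff (mul_nonneg h2.le (Int.fract_nonneg y))] at h3
    obtain ⟨h4, h5⟩ := h3
    refine ⟨Int.fract y + ((i / r ^ W : ℕ) : ℝ), ?_, ?_⟩
    · have hdm := Nat.div_add_mod i (r ^ W)
      have hi : (i : ℝ) = (r : ℝ) ^ W * ((i / r ^ W : ℕ) : ℝ) + ((i % r ^ W : ℕ) : ℝ) := by
        exact_mod_cast hdm.symm
      constructor
      · rw [div_le_iff₀ h2]
        linarith
      · rw [lt_div_iff₀ h2]
        linarith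
    · show ((Int.fract y + ((i / r ^ W : ℕ) : ℝ) : ℝ) : Tor) = (y : Tor)
      obtain ⟨n, hn⟩ : ∃ n : ℕ, n = i / r ^ W := ⟨_, rfl⟩
      rw [← hn]
      have e1 : Int.fract y + (n : ℝ) = y + (((n : ℤ) - ⌊y⌋ : ℤ) : ℝ) := by
        have := Int.floor_add_fract y
        push_cast
        linarith
      have e2 : ((((n : ℤ) - ⌊y⌋ : ℤ) : ℝ) : Tor) = 0 :=
        (AddCircle.coe_eq_zero_iff 1).2 ⟨(n : ℤ) - ⌊y⌋, by simp⟩
      rw [e1, AddCircle.coe_add, e2, add_zero]

theorem mem_arcB_of_lt (hr : 1 ≤ r) {W i : ℕ} (hi : i < r ^ W) (x : Tor) :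
    x ∈ arcB r W i ↔ idxB r W x = i := by
  rw [mem_arcB_iff hr, Nat.mod_eq_of_lt hi]

theorem measurableSet_arcB (hr : 1 ≤ r) (W i : ℕ) : MeasurableSet (arcB r W i) := by
  have : arcB r W i = idxB r W ⁻¹' {i % r ^ W} := by
    ext x
    exact mem_arcB_iff hr W i x
  rw [this]
  exact measurable_idxB r W (measurableSet_singleton _)

/-- the index of `r x` -/
theorem idxB_nsmul (hr : 1 ≤ r) (W : ℕ) (x : Tor) :
    idxB r W (r • x) = idxB r (W + 1) x % r ^ W := by
  have hr' : (1 : ℝ) ≤ r := by exact_mod_cast hr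
  have h2 : (0 : ℝ) < (r : ℝ) ^ W := by positivity
  obtain ⟨y, rfl⟩ := QuotientAddGroup.mk_surjective x
  have e1 : (r • (y : Tor) : Tor) = (((r : ℝ) * y : ℝ) : Tor) := by
    rw [← nsmul_eq_mul]
    rfl
  show idxB r W (r • (y : Tor)) = idxB r (W + 1) (y : Tor) % r ^ W
  rw [e1, idxB_coe, idxB_coe]
  set f := Int.fract y with hf
  have hf0 : 0 ≤ f := Int.fract_nonneg y
  have hf1 : f < 1 := Int.fract_lt_one y
  have e2 : Int.fract ((r : ℝ) * y) = Int.fract ((r : ℝ) * f) := by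
    have : (r : ℝ) * y = (r : ℝ) * f + (((r : ℤ) * ⌊y⌋ : ℤ) : ℝ) := by
      rw [hf]
      have := Int.floor_add_fract y
      push_cast
      nlinarith
    rw [this, Int.fract_add_intCast]
  obtain ⟨n, hn⟩ : ∃ n : ℕ, n = ⌊(r : ℝ) * f⌋₊ := ⟨_, rfl⟩
  have hn0 : (n : ℝ) ≤ r * f := by rw [hn]; exact Nat.floor_le (by positivity)
  have hn1 : (r : ℝ) * f < n + 1 := by rw [hn]; exact Nat.lt_floor_add_one _
  have e3 : Int.fract ((r : ℝ) * f) = r * f - n := by
    rw [← Int.self_sub_floor]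
    congr 1
    have : ⌊(r : ℝ) * f⌋ = (n : ℤ) := by
      rw [Int.floor_eq_iff]
      push_cast
      exact ⟨hn0, hn1⟩
    rw [this]
    push_cast
    rfl
  obtain ⟨c, hc⟩ : ∃ c : ℕ, c = cellB r (W + 1) y := ⟨_, rfl⟩
  have hc0 : (c : ℝ) ≤ (r : ℝ) ^ (W + 1) * f := by
    rw [hc]; unfold cellB; exact Nat.floor_le (by positivity)
  have hc1 : (r : ℝ) ^ (W + 1) * f < c + 1 := by
    rw [hc]; unfold cellB; exact Nat.lt_floor_add_one _
  rw [pow_succ] at hc0 hc1
  -- `c = r ^ W * n + d`, `d < r ^ W`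
  have hcn : r ^ W * n ≤ c := by
    have h5 : ((r ^ W * n : ℕ) : ℝ) < c + 1 := by
      push_cast
      nlinarith
    have h6 : r ^ W * n < c + 1 := by exact_mod_cast h5
    omega
  have hcn2 : c < r ^ W * (n + 1) := by
    have h5 : (c : ℝ) < ((r ^ W * (n + 1) : ℕ) : ℝ) := by
      push_cast
      nlinarith
    exact_mod_cast h5
  have hmod : c % r ^ W = c - r ^ W * n := by
    obtain ⟨d, hd⟩ : ∃ d, c = r ^ W * n + d := ⟨c - r ^ W * n, by omega⟩
    rw [hd, Nat.mul_add_mod, Nat.add_sub_cancel_left]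
    refine Nat.mod_eq_of_lt ?_
    rw [hd, Nat.mul_succ] at hcn2
    omega
  rw [← hc, hmod]
  unfold cellB
  rw [e2, e3, Nat.floor_eq_iff (mul_nonneg h2.le (by linarith)), Nat.cast_sub hcn]
  push_cast
  constructor <;> nlinarith

/-- the preimage of an arc under `x ↦ r x` -/
theorem preimage_arcB (hr : 1 ≤ r) {W J : ℕ} (hJ : J < r ^ W) :
    (fun x : Tor => r • x) ⁻¹' arcB r W J = ⋃ i ∈ range r, arcB r (W + 1) (J + i * r ^ W) := by
  have hpos : 0 < r ^ W := by positivity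
  ext x
  simp only [Set.mem_preimage, Set.mem_iUnion, exists_prop, mem_range]
  rw [mem_arcB_of_lt hr hJ, idxB_nsmul hr]
  have hlt := idxB_lt hr (W + 1) x
  constructor
  · intro h
    refine ⟨idxB r (W + 1) x / r ^ W, ?_, ?_⟩
    · rw [Nat.div_lt_iff_lt_mul hpos, ← pow_succ']
      exact hlt
    · rw [mem_arcB_iff hr]
      have h3 := Nat.mod_add_div (idxB r (W + 1) x) (r ^ W)
      rw [h] at h3
      rw [mul_comm (idxB r (W + 1) x / r ^ W), h3, Nat.mod_eq_of_lt hlt]
  · rintro ⟨i, hi, h⟩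
    have hlt2 : J + i * r ^ W < r ^ (W + 1) := by
      rw [pow_succ']
      calc J + i * r ^ W < r ^ W + i * r ^ W := by omega
        _ = (i + 1) * r ^ W := by ring
        _ ≤ r * r ^ W := Nat.mul_le_mul_right _ hi
    rw [mem_arcB_of_lt hr hlt2] at h
    rw [h, Nat.add_mul_mod_self_right, Nat.mod_eq_of_lt hJ]

/-- the entropy of the partition into arcs of length `r ^ (-K)` -/
noncomputable def entB (μ : Measure Tor) (r K : ℕ) : ℝ :=
  ∑ i ∈ range (r ^ K), Real.negMulLog (μ.real (arcB r K i))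

theorem sum_arcB (hr : 1 ≤ r) (μ : Measure Tor) [IsProbabilityMeasure μ] (W : ℕ) (S : Set Tor)
    (hS : MeasurableSet S) : ∑ i ∈ range (r ^ W), μ.real (arcB r W i ∩ S) = μ.real S := by
  rw [← measureReal_biUnion_finset]
  · congr 1
    ext x
    simp only [Set.mem_iUnion, Set.mem_inter_iff, exists_prop, mem_range]
    constructor
    · rintro ⟨i, -, -, h⟩
      exact h
    · intro h
      exact ⟨idxB r W x, idxB_lt hr W x, (mem_arcB_of_lt hr (idxB_lt hr W x) x).2 rfl, h⟩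
  · intro i hi j hj hij
    have hi' : i < r ^ W := mem_range.1 hi
    have hj' : j < r ^ W := mem_range.1 hj
    refine Set.disjoint_left.2 fun x hx hx' => hij ?_
    rw [← (mem_arcB_of_lt hr hi' x).1 hx.1, ← (mem_arcB_of_lt hr hj' x).1 hx'.1]
  · exact fun i _ => (measurableSet_arcB hr W i).inter hS

/-- **Entropy step** for `x r`-invariant measures: if for all `J` at most one of the `r` arcs of
length `r ^ (-(K + 1))` over the arc `J` meets `G`, then the entropy grows by at most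
`κ + κ log ((r - 1) / κ)`, `μ Gᶜ ≤ κ ≤ 1`. -/
theorem arc_step (hr : 2 ≤ r) {μ : Measure Tor} [IsProbabilityMeasure μ]
    (hμ : MeasurePreserving (fun x : Tor => r • x) μ μ) {K : ℕ} {G : Set Tor}
    (hG : MeasurableSet G) {κ : ℝ} (hGκ : μ.real Gᶜ ≤ κ) (hκ1 : κ ≤ 1)
    (h : ∀ J < r ^ K, ∀ i < r, ∀ i' < r, (arcB r (K + 1) (J + i * r ^ K) ∩ G).Nonempty →
      (arcB r (K + 1) (J + i' * r ^ K) ∩ G).Nonempty → i = i') :
    entB μ r (K + 1) ≤ entB μ r K +
      (κ + κ * Real.log ((r - 1) / κ)) := by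
  classical
  have hr1 : 1 ≤ r := by omega
  have hchoose : ∀ J, ∃ i₀, J < r ^ K → i₀ < r ∧ ∀ i < r, i ≠ i₀ →
      arcB r (K + 1) (J + i * r ^ K) ∩ G = ∅ := by
    intro J
    by_cases hJ : J < r ^ K
    · by_cases hex : ∃ i < r, (arcB r (K + 1) (J + i * r ^ K) ∩ G).Nonempty
      · obtain ⟨i₀, hi₀, hne⟩ := hex
        refine ⟨i₀, fun _ => ⟨hi₀, fun i hi hii => ?_⟩⟩
        by_contra hcon
        exact hii (h J hJ i hi i₀ hi₀ (Set.nonempty_iff_ne_empty.2 hcon) hne)
      · refine ⟨0, fun _ => ⟨by omega, fun i hi _ => ?_⟩⟩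
        by_contra hcon
        exact hex ⟨i, hi, Set.nonempty_iff_ne_empty.2 hcon⟩
    · exact ⟨0, fun h => absurd h hJ⟩
  choose i₀ hi₀ using hchoose
  have hM : ∀ J < r ^ K, μ.real (arcB r K J) =
      ∑ i ∈ range r, μ.real (arcB r (K + 1) (J + i * r ^ K)) := by
    intro J hJ
    have h1 : μ.real (arcB r K J) = μ.real ((fun x : Tor => r • x) ⁻¹' arcB r K J) := by
      rw [measureReal_def, measureReal_def,
        hμ.measure_preimage (measurableSet_arcB hr1 K J).nullMeasurableSet]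
    rw [h1, preimage_arcB hr1 hJ, measureReal_biUnion_finset]
    · intro i hi j hj hij
      have hi' : i < r := mem_range.1 hi
      have hj' : j < r := mem_range.1 hj
      have hlt : ∀ i < r, J + i * r ^ K < r ^ (K + 1) := fun i hi => by
        rw [pow_succ']
        calc J + i * r ^ K < r ^ K + i * r ^ K := by omega
          _ = (i + 1) * r ^ K := by ring
          _ ≤ r * r ^ K := Nat.mul_le_mul_right _ hi
      refine Set.disjoint_left.2 fun x hx hx' => hij ?_
      have h2 := (mem_arcB_of_lt hr1 (hlt i hi') x).1 hx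
      have h3 := (mem_arcB_of_lt hr1 (hlt j hj') x).1 hx'
      rw [h2] at h3
      exact Nat.eq_of_mul_eq_mul_right (show 0 < r ^ K by positivity) (by omega)
    · exact fun i _ => measurableSet_arcB hr1 _ _
  have hone : ∑ J ∈ range (r ^ K), μ.real (arcB r K J) ≤ 1 := by
    have := sum_arcB hr1 μ K Set.univ MeasurableSet.univ
    simp only [Set.inter_univ, probReal_univ] at this
    exact this.le
  have hκ : ∑ J ∈ range (r ^ K), (μ.real (arcB r K J) -
      μ.real (arcB r (K + 1) (J + i₀ J * r ^ K))) ≤ κ := by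
    have hpre : ∀ J < r ^ K, μ.real (arcB r K J) -
        μ.real (arcB r (K + 1) (J + i₀ J * r ^ K)) ≤
        ∑ i ∈ range r, μ.real (arcB r (K + 1) (J + i * r ^ K) ∩ Gᶜ) := by
      intro J hJ
      obtain ⟨h1, h2⟩ := hi₀ J hJ
      rw [hM J hJ, ← Finset.add_sum_erase (range r)
        (fun i => μ.real (arcB r (K + 1) (J + i * r ^ K))) (mem_range.2 h1), add_sub_cancel_left]
      rw [← Finset.add_sum_erase (range r)
        (fun i => μ.real (arcB r (K + 1) (J + i * r ^ K) ∩ Gᶜ)) (mem_range.2 h1)]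
      have h3 : ∑ i ∈ (range r).erase (i₀ J), μ.real (arcB r (K + 1) (J + i * r ^ K)) =
          ∑ i ∈ (range r).erase (i₀ J), μ.real (arcB r (K + 1) (J + i * r ^ K) ∩ Gᶜ) := by
        refine Finset.sum_congr rfl fun i hi => ?_
        congr 1
        refine (Set.inter_eq_left.2 fun x hx hxG => ?_).symm
        have := h2 i (mem_range.1 (Finset.mem_of_mem_erase hi)) (Finset.ne_of_mem_erase hi)
        exact (Set.mem_empty_iff_false x).1 (this ▸ ⟨hx, hxG⟩)
      rw [h3]
      have : (0 : ℝ) ≤ μ.real (arcB r (K + 1) (J + i₀ J * r ^ K) ∩ Gᶜ) := measureReal_nonneg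
      linarith
    refine (Finset.sum_le_sum fun J hJ => hpre J (mem_range.1 hJ)).trans ?_
    refine le_trans (le_of_eq ?_) hGκ
    have hgen : ∀ (f : ℕ → ℝ) (s N : ℕ), ∑ i ∈ range (s * N), f i =
        ∑ J ∈ range N, ∑ i ∈ range s, f (J + i * N) := by
      intro f s N
      induction s with
      | zero => simp
      | succ s ih =>
        rw [Nat.succ_mul, Finset.sum_range_add, ih, ← Finset.sum_add_distrib]
        refine Finset.sum_congr rfl fun J _ => ?_
        rw [Finset.sum_range_succ, add_comm (s * N) J]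
    rw [← hgen (fun i => μ.real (arcB r (K + 1) i ∩ Gᶜ)) r (r ^ K), ← pow_succ',
      sum_arcB hr1 μ (K + 1) Gᶜ hG.compl]
  have hfin := entropy_step hr (N := r ^ K) (m := fun i => μ.real (arcB r (K + 1) i))
    (fun i => measureReal_nonneg) (M := fun J => μ.real (arcB r K J)) hM hone
    (i₀ := i₀) (fun J hJ => (hi₀ J hJ).1) (κ := κ) (measureReal_nonneg.trans hGκ) hκ1 hκ
  unfold entB
  rw [pow_succ']
  exact hfin

end Pool.Agent.Helper48.MX
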