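import Mathlib
import Pool.Agent.Helper87.MX.Fr
import Pool.Agent.Helper48.MX.ArcB

/-!
# The triadic entropy step
-/

set_option autoImplicit false

open MeasureTheory Finset

namespace Pool.Agent.Helper48.MX

open Pool.Agent.Helper87.MX (S_E3 Inv Sep3 arc3 ent3)

theorem arcB_three (K i : ℕ) : arcB 3 K i = arc3 K i := by
  unfold arcB arc3
  norm_num

/-- the triadic entropy step -/
theorem s_E3 : S_E3 := by
  classical
  intro μ hμ hinv K G κ hS hG hκ
  set B : Set Tor := ⋃ i ∈ (range (3 ^ (K + 1))).filter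
    (fun i => ∀ x ∈ arcB 3 (K + 1) i, x ∉ G), arcB 3 (K + 1) i with hB
  have hBm : MeasurableSet B := Finset.measurableSet_biUnion _ fun i _ =>
    measurableSet_arcB (by norm_num) _ _
  have hBG : B ⊆ Gᶜ := by
    intro x hx
    simp only [hB, Set.mem_iUnion, mem_filter, exists_prop] at hx
    obtain ⟨i, ⟨-, h1⟩, h2⟩ := hx
    exact h1 x h2
  have hκB : μ.real Bᶜᶜ ≤ κ := by
    rw [compl_compl]
    exact (measureReal_mono hBG (measure_ne_top _ _)).trans hG
  have hstep := arc_step (r := 3) (by norm_num) hinv (K := K) hBm.compl hκB hκ (by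
    intro J hJ i hi i' hi' hne hne'
    obtain ⟨l, hl, h⟩ := hS J hJ
    have hkey : ∀ i < 3, (arcB 3 (K + 1) (J + i * 3 ^ K) ∩ Bᶜ).Nonempty → i = l := by
      intro i hi hne
      by_contra hil
      obtain ⟨x, hx, hxB⟩ := hne
      apply hxB
      simp only [hB, Set.mem_iUnion, mem_filter, exists_prop, mem_range]
      refine ⟨J + i * 3 ^ K, ⟨?_, fun y hy => ?_⟩, hx⟩
      · have h5 : i * 3 ^ K ≤ 2 * 3 ^ K := Nat.mul_le_mul_right _ (by omega)
        have h6 : (3 : ℕ) ^ (K + 1) = 3 * 3 ^ K := pow_succ' _ _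
        rw [h6]
        omega
      · rw [arcB_three] at hy
        exact h i hi hil y hy
    rw [hkey i hi hne, hkey i' hi' hne'])
  have he : ∀ K, entB μ 3 K = ent3 μ K := by
    intro K
    unfold entB ent3
    simp only [arcB_three]
  rw [he, he] at hstep
  refine hstep.trans (le_of_eq ?_)
  congr 1
  rcases eq_or_ne κ 0 with h0 | h0
  · rw [h0]
    simp
  · have : (((3 : ℕ) : ℝ) - 1) / κ = 2 / κ := by norm_num
    rw [this, Real.log_div two_ne_zero h0]
    unfold Real.negMulLog
    ring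

end Pool.Agent.Helper48.MX
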