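import Mathlib

/-!
# Blocks of functions on a probability space

`A F` is the average of the functions `u p`, `p ∈ F`, and `Y F = ‖A F / c - 1‖ ^ 2`.  If the
correlations of two blocks `F`, `F'` are close to products, then the integral of `Y F * Y F'` is
close to the product of the integrals.
-/

set_option autoImplicit false

open MeasureTheory Finset
open scoped ComplexConjugate

namespace Pool.Agent.Helper48.MX

variable {Ω : Type*} {ι : Type*}

/-- the average of the functions `u p`, `p ∈ F` -/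
noncomputable def avg (u : ι → Ω → ℂ) (F : Finset ι) (x : Ω) : ℂ :=
  (∑ p ∈ F, u p x) / (F.card : ℂ)

/-- the square of the relative deviation of the average -/
noncomputable def dev (u : ι → Ω → ℂ) (c : ℂ) (F : Finset ι) (x : Ω) : ℝ :=
  ‖avg u F x / c - 1‖ ^ 2

/-- `u p` or `1` -/
noncomputable def opt (u : ι → Ω → ℂ) (e : Bool) (p : ι) (x : Ω) : ℂ := if e then u p x else 1

/-- `1 / c` or `-1` -/
noncomputable def cof (c : ℂ) (e : Bool) : ℂ := if e then 1 / c else -1

theorem norm_cof_le (c : ℂ) (e : Bool) : ‖cof c e‖ ≤ max 1 (1 / ‖c‖) := by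
  cases e
  · simp [cof]
  · simp [cof]

theorem norm_opt_le {u : ι → Ω → ℂ} (hu : ∀ i x, ‖u i x‖ ≤ 1) (e : Bool) (p : ι) (x : Ω) :
    ‖opt u e p x‖ ≤ 1 := by
  cases e
  · simp [opt]
  · simpa [opt] using hu p x

theorem measurable_opt [MeasurableSpace Ω] {u : ι → Ω → ℂ} (hm : ∀ i, Measurable (u i)) (e : Bool)
    (p : ι) : Measurable (opt u e p) := by
  cases e
  · exact measurable_const
  · exact hm p

theorem dev_nonneg (u : ι → Ω → ℂ) (c : ℂ) (F : Finset ι) (x : Ω) : 0 ≤ dev u c F x := by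
  unfold dev
  positivity

/-- the expansion of the deviation -/
theorem dev_eq (u : ι → Ω → ℂ) {c : ℂ} (F : Finset ι) (hF : F.Nonempty) (x : Ω) :
    (dev u c F x : ℂ) = (∑ p ∈ F ×ˢ F, ∑ e : Bool × Bool,
      cof c e.1 * conj (cof c e.2) * (opt u e.1 p.1 x * conj (opt u e.2 p.2 x))) /
        (F.card : ℂ) ^ 2 := by
  have hN : (F.card : ℂ) ≠ 0 := by
    exact_mod_cast hF.card_pos.ne'
  have h1 : avg u F x / c - 1 = (∑ p ∈ F, ∑ e : Bool, cof c e * opt u e p x) / (F.card : ℂ) := by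
    rw [eq_div_iff hN]
    simp only [avg, Fintype.sum_bool, cof, opt, if_true, Bool.false_eq_true, if_false]
    rw [Finset.sum_add_distrib, Finset.sum_const, nsmul_eq_mul, ← Finset.mul_sum]
    field_simp
    ring
  have h2 : (dev u c F x : ℂ) = (avg u F x / c - 1) * conj (avg u F x / c - 1) := by
    rw [Complex.mul_conj, dev, Complex.normSq_eq_norm_sq]
  rw [h2, h1, map_div₀, map_natCast, div_mul_div_comm, ← pow_two, map_sum, Finset.sum_mul_sum,
    Finset.sum_product]
  congr 1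
  refine Finset.sum_congr rfl fun p _ => Finset.sum_congr rfl fun q _ => ?_
  rw [map_sum, Finset.sum_mul_sum, Fintype.sum_prod_type]
  refine Finset.sum_congr rfl fun e _ => Finset.sum_congr rfl fun e' _ => ?_
  rw [map_mul]
  ring

section Meas

variable [MeasurableSpace Ω] {μ : Measure Ω} [IsProbabilityMeasure μ] {u : ι → Ω → ℂ}

theorem measurable_avg (hm : ∀ i, Measurable (u i)) (F : Finset ι) : Measurable (avg u F) := by
  unfold avg
  exact (Finset.measurable_sum _ fun i _ => hm i).div_const _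

theorem measurable_dev (hm : ∀ i, Measurable (u i)) (c : ℂ) (F : Finset ι) :
    Measurable (dev u c F) := by
  unfold dev
  exact (((measurable_avg hm F).div_const c).sub_const 1).norm.pow_const 2

omit [MeasurableSpace Ω] in
theorem norm_avg_le (hu : ∀ i x, ‖u i x‖ ≤ 1) (F : Finset ι) (x : Ω) : ‖avg u F x‖ ≤ 1 := by
  unfold avg
  rw [norm_div, Complex.norm_natCast]
  refine div_le_one_of_le₀ ?_ (Nat.cast_nonneg _)
  refine (norm_sum_le _ _).trans ?_
  refine (Finset.sum_le_sum fun i _ => hu i x).trans ?_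
  simp

omit [MeasurableSpace Ω] in
theorem dev_le (hu : ∀ i x, ‖u i x‖ ≤ 1) (c : ℂ) (F : Finset ι) (x : Ω) :
    dev u c F x ≤ (1 / ‖c‖ + 1) ^ 2 := by
  unfold dev
  refine pow_le_pow_left₀ (norm_nonneg _) ?_ 2
  refine (norm_sub_le _ _).trans ?_
  rw [norm_div, norm_one]
  have h := norm_avg_le hu F x
  gcongr

theorem integrable_of_bdd {f : Ω → ℂ} (hf : Measurable f) {C : ℝ} (hC : ∀ x, ‖f x‖ ≤ C) :
    Integrable f μ :=
  Integrable.of_bound hf.aestronglyMeasurable C (Filter.Eventually.of_forall hC)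

/-- **Two blocks.** -/
theorem block (hm : ∀ i, Measurable (u i)) (hu : ∀ i x, ‖u i x‖ ≤ 1) {c : ℂ}
    {F F' : Finset ι} (hF : F.Nonempty) (hF' : F'.Nonempty) {δ : ℝ}
    (h : ∀ p ∈ F ×ˢ F, ∀ q ∈ F' ×ˢ F', ∀ e e' : Bool × Bool,
      ‖(∫ x, (opt u e.1 p.1 x * conj (opt u e.2 p.2 x)) *
          (opt u e'.1 q.1 x * conj (opt u e'.2 q.2 x)) ∂μ) -
        (∫ x, opt u e.1 p.1 x * conj (opt u e.2 p.2 x) ∂μ) *
          ∫ x, opt u e'.1 q.1 x * conj (opt u e'.2 q.2 x) ∂μ‖ ≤ δ) :
    ∫ x, dev u c F x * dev u c F' x ∂μ ≤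
      (∫ x, dev u c F x ∂μ) * (∫ x, dev u c F' x ∂μ) + 16 * max 1 (1 / ‖c‖) ^ 4 * δ := by
  set K : ℝ := max 1 (1 / ‖c‖) with hK
  have hK0 : 0 ≤ K := le_trans zero_le_one (le_max_left _ _)
  set w : Bool × Bool → ι × ι → Ω → ℂ := fun e p x => opt u e.1 p.1 x * conj (opt u e.2 p.2 x)
    with hw
  set a : Bool × Bool → ℂ := fun e => cof c e.1 * conj (cof c e.2) with ha
  have hwm : ∀ e p, Measurable (w e p) := fun e p =>
    (measurable_opt hm e.1 p.1).mul (Complex.continuous_conj.measurable.comp (measurable_opt hm e.2 p.2))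
  have hwb : ∀ e p x, ‖w e p x‖ ≤ 1 := fun e p x => by
    rw [hw]
    simp only [norm_mul, RCLike.norm_conj]
    exact mul_le_one₀ (norm_opt_le hu _ _ _) (norm_nonneg _) (norm_opt_le hu _ _ _)
  have hwi : ∀ e p, Integrable (w e p) μ := fun e p => integrable_of_bdd (hwm e p) (hwb e p)
  have hwwi : ∀ e p e' p', Integrable (fun x => w e p x * w e' p' x) μ := fun e p e' p' =>
    integrable_of_bdd ((hwm e p).mul (hwm e' p')) (C := 1) fun x => by
      rw [norm_mul]
      exact mul_le_one₀ (hwb _ _ _) (norm_nonneg _) (hwb _ _ _)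
  have hab : ∀ e, ‖a e‖ ≤ K ^ 2 := fun e => by
    rw [ha]
    simp only [norm_mul, RCLike.norm_conj]
    rw [pow_two]
    exact mul_le_mul (norm_cof_le c _) (norm_cof_le c _) (norm_nonneg _) hK0
  have hdev : ∀ (G : Finset ι), G.Nonempty → ∀ x, (dev u c G x : ℂ) =
      (∑ p ∈ G ×ˢ G, ∑ e : Bool × Bool, a e * w e p x) / (G.card : ℂ) ^ 2 := fun G hG x =>
    dev_eq u G hG x
  have hint : ∀ (G : Finset ι), G.Nonempty → ((∫ x, dev u c G x ∂μ : ℝ) : ℂ) =
      (∑ p ∈ G ×ˢ G, ∑ e : Bool × Bool, a e * ∫ x, w e p x ∂μ) / (G.card : ℂ) ^ 2 := by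
    intro G hG
    rw [← integral_complex_ofReal]
    simp only [hdev G hG]
    rw [integral_div, integral_finsetSum _ fun p _ =>
      integrable_finsetSum _ fun e _ => (hwi e p).const_mul _]
    congr 1
    refine Finset.sum_congr rfl fun p _ => ?_
    rw [integral_finsetSum _ fun e _ => (hwi e p).const_mul _]
    refine Finset.sum_congr rfl fun e _ => ?_
    rw [integral_const_mul]
  have hprod : ((∫ x, dev u c F x * dev u c F' x ∂μ : ℝ) : ℂ) =
      (∑ p ∈ F ×ˢ F, ∑ q ∈ F' ×ˢ F', ∑ e : Bool × Bool, ∑ e' : Bool × Bool,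
        a e * a e' * ∫ x, w e p x * w e' q x ∂μ) / ((F.card : ℂ) ^ 2 * (F'.card : ℂ) ^ 2) := by
    rw [← integral_complex_ofReal]
    have h1 : ∀ x, ((dev u c F x * dev u c F' x : ℝ) : ℂ) =
        (∑ p ∈ F ×ˢ F, ∑ q ∈ F' ×ˢ F', ∑ e : Bool × Bool, ∑ e' : Bool × Bool,
          a e * a e' * (w e p x * w e' q x)) / ((F.card : ℂ) ^ 2 * (F'.card : ℂ) ^ 2) := by
      intro x
      rw [Complex.ofReal_mul, hdev F hF, hdev F' hF', div_mul_div_comm, Finset.sum_mul_sum]
      congr 1
      refine Finset.sum_congr rfl fun p _ => Finset.sum_congr rfl fun q _ => ?_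
      rw [Finset.sum_mul_sum]
      refine Finset.sum_congr rfl fun e _ => Finset.sum_congr rfl fun e' _ => ?_
      ring
    simp only [h1]
    have hi : ∀ p q e e', Integrable (fun x => a e * a e' * (w e p x * w e' q x)) μ :=
      fun p q e e' => (hwwi e p e' q).const_mul _
    rw [integral_div, integral_finsetSum _ fun p _ => integrable_finsetSum _ fun q _ =>
      integrable_finsetSum _ fun e _ => integrable_finsetSum _ fun e' _ => hi p q e e']
    congr 1
    refine Finset.sum_congr rfl fun p _ => ?_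
    rw [integral_finsetSum _ fun q _ =>
      integrable_finsetSum _ fun e _ => integrable_finsetSum _ fun e' _ => hi p q e e']
    refine Finset.sum_congr rfl fun q _ => ?_
    rw [integral_finsetSum _ fun e _ => integrable_finsetSum _ fun e' _ => hi p q e e']
    refine Finset.sum_congr rfl fun e _ => ?_
    rw [integral_finsetSum _ fun e' _ => hi p q e e']
    refine Finset.sum_congr rfl fun e' _ => ?_
    rw [integral_const_mul]
  have hprod2 : (((∫ x, dev u c F x ∂μ) * (∫ x, dev u c F' x ∂μ) : ℝ) : ℂ) =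
      (∑ p ∈ F ×ˢ F, ∑ q ∈ F' ×ˢ F', ∑ e : Bool × Bool, ∑ e' : Bool × Bool,
        a e * a e' * ((∫ x, w e p x ∂μ) * ∫ x, w e' q x ∂μ)) /
          ((F.card : ℂ) ^ 2 * (F'.card : ℂ) ^ 2) := by
    rw [Complex.ofReal_mul, hint F hF, hint F' hF', div_mul_div_comm, Finset.sum_mul_sum]
    congr 1
    refine Finset.sum_congr rfl fun p _ => Finset.sum_congr rfl fun q _ => ?_
    rw [Finset.sum_mul_sum]
    refine Finset.sum_congr rfl fun e _ => Finset.sum_congr rfl fun e' _ => ?_
    ring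
  have hFc : (0 : ℝ) < F.card := by exact_mod_cast hF.card_pos
  have hFc' : (0 : ℝ) < F'.card := by exact_mod_cast hF'.card_pos
  have hfin : ‖(((∫ x, dev u c F x * dev u c F' x ∂μ) -
      (∫ x, dev u c F x ∂μ) * (∫ x, dev u c F' x ∂μ) : ℝ) : ℂ)‖ ≤ 16 * K ^ 4 * δ := by
    rw [Complex.ofReal_sub, hprod, hprod2, ← sub_div, norm_div, norm_mul, norm_pow, norm_pow,
      Complex.norm_natCast, Complex.norm_natCast, div_le_iff₀ (by positivity)]
    simp only [← Finset.sum_sub_distrib, ← mul_sub]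
    have hterm : ∀ p ∈ F ×ˢ F, ∀ q ∈ F' ×ˢ F', ∀ e e' : Bool × Bool,
        ‖a e * a e' * ((∫ x, w e p x * w e' q x ∂μ) -
          (∫ x, w e p x ∂μ) * ∫ x, w e' q x ∂μ)‖ ≤ K ^ 4 * δ := by
      intro p hp q hq e e'
      rw [norm_mul, norm_mul, show K ^ 4 = K ^ 2 * K ^ 2 by ring]
      exact mul_le_mul (mul_le_mul (hab e) (hab e') (norm_nonneg _) (by positivity))
        (h p hp q hq e e') (norm_nonneg _) (by positivity)
    calc _ ≤ ∑ p ∈ F ×ˢ F, ∑ q ∈ F' ×ˢ F', ∑ e : Bool × Bool, ∑ e' : Bool × Bool,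
          K ^ 4 * δ := by
          refine (norm_sum_le _ _).trans (Finset.sum_le_sum fun p hp => ?_)
          refine (norm_sum_le _ _).trans (Finset.sum_le_sum fun q hq => ?_)
          refine (norm_sum_le _ _).trans (Finset.sum_le_sum fun e _ => ?_)
          refine (norm_sum_le _ _).trans (Finset.sum_le_sum fun e' _ => ?_)
          exact hterm p hp q hq e e'
      _ = 16 * K ^ 4 * δ * ((F.card : ℝ) ^ 2 * (F'.card : ℝ) ^ 2) := by
          simp only [Finset.sum_const, Finset.card_product, nsmul_eq_mul, Finset.card_univ,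
            Fintype.card_prod, Fintype.card_bool]
          push_cast
          ring
  rw [Complex.norm_real, Real.norm_eq_abs] at hfin
  have := (abs_le.1 hfin).2
  linarith

end Meas

end Pool.Agent.Helper48.MX
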