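import Mathlib
import Pool.Agent.Helper87.MX.Fr3
import Pool.Agent.Helper17.GH.Gap

/-!
# Characters with nonzero mean are not cohomologous to constants
-/

set_option autoImplicit false

open MeasureTheory Finset Filter

namespace Pool.Agent.Helper48.MX

open Pool.Agent.Helper87.MX (S_AR Inv rav ent arc Tor)
open Pool.Agent.Helper25.MX (psi psi_nonneg psi_summable summable_ent)

/-- the tails of an integrable function are summable -/
theorem summable_tail {Ω : Type*} [MeasurableSpace Ω] {μ : Measure Ω} [IsProbabilityMeasure μ]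
    {g : Ω → ℂ} (hg : Integrable g μ) {a : ℝ} (ha : 0 < a) :
    Summable fun B : ℕ => μ.real {x | a * B ≤ ‖g x‖} := by
  have hint : Integrable (fun x => ‖g x‖ / a) μ := hg.norm.div_const a
  have h1 : ∑' j : ℕ, μ {x | ‖g x‖ / a ∈ Set.Ioi (j : ℝ)} < ⊤ := by
    let _ : MeasureSpace Ω := ⟨μ⟩
    have _ : IsProbabilityMeasure (volume : Measure Ω) := ‹IsProbabilityMeasure μ›
    exact ProbabilityTheory.tsum_prob_mem_Ioi_lt_top (X := fun x : Ω => ‖g x‖ / a) hint
      (fun x => div_nonneg (norm_nonneg _) ha.le)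
  have h2 : Summable fun j : ℕ => μ.real {x | ‖g x‖ / a ∈ Set.Ioi (j : ℝ)} :=
    ENNReal.summable_toReal h1.ne
  rw [← summable_nat_add_iff 1]
  refine Summable.of_nonneg_of_le (fun _ => measureReal_nonneg) (fun j => ?_) h2
  refine measureReal_mono (fun x hx => ?_) (measure_ne_top _ _)
  have h3 : a * ((j + 1 : ℕ) : ℝ) ≤ ‖g x‖ := hx
  show (j : ℝ) < ‖g x‖ / a
  rw [lt_div_iff₀ ha]
  push_cast at h3
  nlinarith

/-- each value taken twice -/
theorem summable_half {a : ℕ → ℝ} (h0 : ∀ j, 0 ≤ a j) (hs : Summable a) :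
    Summable fun j : ℕ => a (j / 2) := by
  refine summable_of_sum_range_le (c := 2 * ∑' j, a j) (fun j => h0 _) fun N => ?_
  have h1 : ∑ j ∈ range N, a (j / 2) ≤ ∑ j ∈ range (2 * N), a (j / 2) :=
    Finset.sum_le_sum_of_subset_of_nonneg (range_mono (by omega)) fun _ _ _ => h0 _
  have h2 : ∀ M : ℕ, ∑ j ∈ range (2 * M), a (j / 2) = 2 * ∑ j ∈ range M, a j := by
    intro M
    induction M with
    | zero => simp
    | succ M ih =>
      rw [Nat.mul_succ, Finset.sum_range_succ, Finset.sum_range_succ, ih, Finset.sum_range_succ]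
      have e1 : 2 * M / 2 = M := by omega
      have e2 : (2 * M + 1) / 2 = M := by omega
      rw [e1, e2]
      ring
  rw [h2] at h1
  have h3 := hs.sum_le_tsum (range N) fun _ _ => h0 _
  linarith

theorem summable_shift {a : ℕ → ℝ} (hs : Summable a) (C : ℕ) :
    Summable fun j : ℕ => a (j - C) := by
  rw [← summable_nat_add_iff C]
  simpa using hs

/-- summable bad sets contradict `not_summable_ent` -/
theorem not_bad (hAR : S_AR) {μ : Measure Tor} [IsProbabilityMeasure μ] (h2 : Inv 2 μ)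
    (h3 : Inv 3 μ) (h0 : ∀ x, μ {x} = 0) {k : ℕ} (hk : Odd k) {c : ℂ} (hc : c ≠ 0)
    (F : ℕ → Finset ℕ) (hF : ∀ j, ∀ b ∈ F j, Real.pi * k * 3 ^ b ≤ ‖c‖ * 2 ^ j) :
    ¬ Summable fun j => μ.real {x | ‖c‖ / 2 ≤ ‖rav 3 k (F j) x - c‖} := by
  intro hs
  set κ : ℕ → ℝ := fun j => μ.real {x | ‖c‖ / 2 ≤ ‖rav 3 k (F j) x - c‖} with hκ
  have hκ0 : ∀ j, 0 ≤ κ j := fun j => measureReal_nonneg
  have hκ1 : ∀ j, κ j ≤ 1 := fun j => measureReal_le_one
  have hent := hAR μ ‹_› h2 k c F hk hc hF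
  have hpsi : ∀ v : ℝ, 0 ≤ v → v + Real.negMulLog v ≤ psi v := by
    intro v hv
    unfold psi
    have h8 : 0 ≤ Real.log 8 := Real.log_nonneg (by norm_num)
    nlinarith
  have hsub : ∀ (φ : ℕ → ℕ), StrictMono φ → Summable fun j : ℕ =>
      psi (κ (φ j)) / Real.log ((j : ℝ) + 2) := fun φ hφ =>
    psi_summable (fun j => hκ0 _) (fun j => hκ1 _) (hs.comp_injective hφ.injective)
  have he := hsub (fun j => 2 * j) (fun a b h => by simpa using h)
  have ho := hsub (fun j => 2 * j + 1) (fun a b h => by simpa using h)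
  have hsum : Summable fun j : ℕ => (psi (κ (2 * j)) + psi (κ (2 * j + 1))) /
      Real.log ((j : ℝ) + 2) := by
    refine (he.add ho).congr fun j => ?_
    rw [add_div]
  have hfin := summable_ent (a := fun j => psi (κ (2 * j)) + psi (κ (2 * j + 1)))
    (H := fun K => ent μ K) (C := 0)
    (fun j => add_nonneg (psi_nonneg (hκ0 _) (hκ1 _)) (psi_nonneg (hκ0 _) (hκ1 _)))
    (fun K => Finset.sum_nonneg fun i _ =>
      Real.negMulLog_nonneg measureReal_nonneg measureReal_le_one)
    (fun K J hKJ => by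
      rw [zero_add]
      have h5 : ∀ J : ℕ, ∑ j ∈ range J, (psi (κ (2 * j)) + psi (κ (2 * j + 1))) =
          ∑ j ∈ range (2 * J), psi (κ j) := by
        intro J
        induction J with
        | zero => simp
        | succ J ih =>
          rw [Finset.sum_range_succ, ih, Nat.mul_succ, Finset.sum_range_succ,
            Finset.sum_range_succ]
          ring
      rw [h5]
      refine (hent K).trans ?_
      refine (Finset.sum_le_sum fun j _ => hpsi (κ j) (hκ0 j)).trans ?_
      exact Finset.sum_le_sum_of_subset_of_nonneg (range_mono hKJ)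
        fun j _ _ => psi_nonneg (hκ0 _) (hκ1 _))
    hsum
  exact Helper17.GH.not_summable_ent (ν := μ) h2 h3 h0 hfin

/-- iterates of a relation almost everywhere -/
theorem ae_iterate {μ : Measure Tor} (h3 : Inv 3 μ) {P : Tor → Prop} (hP : ∀ᵐ x ∂μ, P x) :
    ∀ᵐ x ∂μ, ∀ b : ℕ, P ((3 ^ b : ℕ) • x) := by
  rw [ae_all_iff]
  intro b
  induction b with
  | zero => simpa using hP
  | succ b ih =>
    have h := h3.quasiMeasurePreserving.ae ih
    filter_upwards [h] with x hx
    rwa [smul_smul, ← pow_succ] at hx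

theorem fourier_mul_nsmul (k n : ℕ) (x : Tor) :
    (fourier ((k * n : ℕ) : ℤ) x : ℂ) = fourier (k : ℤ) (n • x) := by
  simp only [fourier_apply]
  congr 2
  rw [natCast_zsmul, natCast_zsmul, smul_smul]

theorem rav_nsmul (k n : ℕ) (F : Finset ℕ) (x : Tor) :
    rav 3 k F (n • x) = rav 3 (n * k) F x := by
  unfold rav
  congr 1
  refine Finset.sum_congr rfl fun b _ => ?_
  rw [← fourier_mul_nsmul]
  congr 2
  push_cast
  ring

/-- **No cohomological equation.**  For a nonatomic measure invariant under `x ↦ 2 x` and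
`x ↦ 3 x` no function `e (k x) - c`, `c ≠ 0`, `k ≥ 1`, is of the form `g x - g (3 x)` with `g`
integrable. -/
theorem no_coboundary (hAR : S_AR) {μ : Measure Tor} [IsProbabilityMeasure μ] (h2 : Inv 2 μ)
    (h3 : Inv 3 μ) (h0 : ∀ x, μ {x} = 0) {k : ℕ} (hk : 1 ≤ k) {c : ℂ} (hc : c ≠ 0)
    {g : Tor → ℂ} (hg : Integrable g μ)
    (hcob : ∀ᵐ x ∂μ, (fourier (k : ℤ) x : ℂ) - c = g x - g ((3 : ℕ) • x)) : False := by
  obtain ⟨l, k', hk', hkk⟩ : ∃ l k' : ℕ, Odd k' ∧ k = 2 ^ l * k' := by
    obtain ⟨l, k', h, h'⟩ := Nat.exists_eq_two_pow_mul_odd (n := k) (by omega)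
    exact ⟨l, k', h, h'⟩
  have hcn : 0 < ‖c‖ := norm_pos_iff.2 hc
  obtain ⟨C, hC⟩ := pow_unbounded_of_one_lt (Real.pi * k' / ‖c‖) (by norm_num : (1 : ℝ) < 2)
  rw [div_lt_iff₀ hcn] at hC
  refine not_bad hAR h2 h3 h0 hk' hc (fun j => range ((j - C) / 2)) ?_ ?_
  · intro j b hb
    rw [mem_range] at hb
    have h4 : (3 : ℝ) ^ b ≤ 2 ^ (2 * b) := by
      rw [pow_mul]
      exact pow_le_pow_left₀ (by norm_num) (by norm_num) _
    have h5 : 2 * b + C ≤ j := by omega
    have h6 : (2 : ℝ) ^ (2 * b) * 2 ^ C ≤ 2 ^ j := by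
      rw [← pow_add]
      exact pow_le_pow_right₀ (by norm_num) h5
    have hpk : 0 ≤ Real.pi * k' := by positivity
    calc Real.pi * k' * 3 ^ b ≤ (2 ^ C * ‖c‖) * 2 ^ (2 * b) :=
          mul_le_mul hC.le h4 (by positivity) (by positivity)
      _ = ‖c‖ * (2 ^ (2 * b) * 2 ^ C) := by ring
      _ ≤ ‖c‖ * 2 ^ j := mul_le_mul_of_nonneg_left h6 hcn.le
  · -- the bad sets
    have hiter := ae_iterate h3 hcob
    have htel : ∀ B : ℕ, ∀ᵐ x ∂μ, ∑ b ∈ range B, ((fourier ((k * 3 ^ b : ℕ) : ℤ) x : ℂ) - c) =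
        g x - g ((3 ^ B : ℕ) • x) := by
      intro B
      filter_upwards [hiter] with x hx
      induction B with
      | zero => simp
      | succ B ih =>
        rw [Finset.sum_range_succ, ih, fourier_mul_nsmul, hx B, smul_smul, ← pow_succ']
        ring
    have hinvB : ∀ (r : ℕ), Inv r μ → ∀ B : ℕ,
        MeasurePreserving (fun x : Tor => (r ^ B : ℕ) • x) μ μ := by
      intro r hr B
      induction B with
      | zero =>
        have e : (fun x : Tor => (r ^ 0 : ℕ) • x) = id := by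
          funext x
          simp
        rw [e]
        exact MeasurePreserving.id μ
      | succ B ih =>
        have e : (fun x : Tor => (r ^ (B + 1) : ℕ) • x) =
            (fun x : Tor => r • x) ∘ fun x : Tor => (r ^ B : ℕ) • x := by
          funext x
          show (r ^ (B + 1) : ℕ) • x = r • ((r ^ B : ℕ) • x)
          rw [smul_smul, pow_succ']
        rw [e]
        exact hr.comp ih
    have hgm : ∀ a : ℝ, NullMeasurableSet {x | a ≤ ‖g x‖} μ := fun a =>
      nullMeasurableSet_le aemeasurable_const hg.aestronglyMeasurable.norm.aemeasurable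
    have hbad : ∀ B : ℕ, 1 ≤ B → μ.real {x | ‖c‖ / 2 ≤ ‖rav 3 k' (range B) x - c‖} ≤
        2 * μ.real {x | ‖c‖ / 4 * B ≤ ‖g x‖} := by
      intro B hB
      have hBpos : (0 : ℝ) < B := by exact_mod_cast hB
      have hmeas : Measurable (rav 3 k' (range B)) := by
        unfold rav
        exact (Finset.measurable_sum _ fun b _ => (fourier _).continuous.measurable).div_const _
      have e1 : μ.real {x | ‖c‖ / 2 ≤ ‖rav 3 k' (range B) x - c‖} =
          μ.real {x | ‖c‖ / 2 ≤ ‖rav 3 k (range B) x - c‖} := by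
        have hms : MeasurableSet {x : Tor | ‖c‖ / 2 ≤ ‖rav 3 k' (range B) x - c‖} :=
          measurableSet_le measurable_const (hmeas.sub_const c).norm
        have h5 := (hinvB 2 h2 l).measure_preimage hms.nullMeasurableSet
        have h6 : (fun x : Tor => (2 ^ l : ℕ) • x) ⁻¹' {x | ‖c‖ / 2 ≤ ‖rav 3 k' (range B) x - c‖} =
            {x | ‖c‖ / 2 ≤ ‖rav 3 k (range B) x - c‖} := by
          ext x
          simp only [Set.mem_preimage, Set.mem_ofPred_eq]
          rw [rav_nsmul, ← hkk]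
        rw [measureReal_def, measureReal_def, ← h5, h6]
      rw [e1]
      have hsub : {x | ‖c‖ / 2 ≤ ‖rav 3 k (range B) x - c‖} ≤ᵐ[μ]
          ({x | ‖c‖ / 4 * B ≤ ‖g x‖} ∪
            (fun x : Tor => (3 ^ B : ℕ) • x) ⁻¹' {x | ‖c‖ / 4 * B ≤ ‖g x‖} : Set Tor) := by
        filter_upwards [htel B] with x hx hmem
        have h7 : ‖c‖ / 2 ≤ ‖rav 3 k (range B) x - c‖ := hmem
        have h8 : rav 3 k (range B) x - c = (g x - g ((3 ^ B : ℕ) • x)) / B := by
          rw [← hx, Finset.sum_sub_distrib, Finset.sum_const, card_range, nsmul_eq_mul]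
          unfold rav
          rw [card_range]
          have : (B : ℂ) ≠ 0 := by exact_mod_cast hBpos.ne'
          field_simp
        rw [h8, norm_div, Complex.norm_natCast, le_div_iff₀ hBpos] at h7
        have h9 := norm_sub_le (g x) (g ((3 ^ B : ℕ) • x))
        by_cases h10 : ‖c‖ / 4 * B ≤ ‖g x‖
        · exact Or.inl h10
        · refine Or.inr ?_
          show ‖c‖ / 4 * B ≤ ‖g ((3 ^ B : ℕ) • x)‖
          push Not at h10
          linarith
      have h11 : μ {x | ‖c‖ / 2 ≤ ‖rav 3 k (range B) x - c‖} ≤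
          μ {x | ‖c‖ / 4 * B ≤ ‖g x‖} + μ {x | ‖c‖ / 4 * B ≤ ‖g x‖} := by
        refine (measure_mono_ae hsub).trans ((measure_union_le _ _).trans (le_of_eq ?_))
        rw [(hinvB 3 h3 B).measure_preimage (hgm _)]
      have h12 := ENNReal.toReal_mono (by finiteness) h11
      rw [ENNReal.toReal_add (measure_ne_top _ _) (measure_ne_top _ _)] at h12
      rw [measureReal_def, measureReal_def]
      linarith
    have htail := summable_tail hg (a := ‖c‖ / 4) (by positivity)
    have hmaj : Summable fun j : ℕ => 2 * μ.real {x | ‖c‖ / 4 * (((j - C) / 2 : ℕ) : ℝ) ≤ ‖g x‖} :=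
      ((summable_shift (summable_half (a := fun B : ℕ => μ.real {x | ‖c‖ / 4 * (B : ℝ) ≤ ‖g x‖})
        (fun _ => measureReal_nonneg) htail) C)).mul_left 2
    rw [← summable_nat_add_iff (C + 2)] at hmaj ⊢
    refine Summable.of_nonneg_of_le (fun _ => measureReal_nonneg) (fun j => ?_) hmaj
    exact hbad _ (by omega)

open Pool.Agent.Helper87.MX (S_CB cf) in
theorem s_CB (hAR : S_AR) : S_CB := by
  intro μ hμ h2 h3 k g hk hc hg hcob
  by_contra hcon
  push Not at hcon
  exact no_coboundary hAR h2 h3 hcon hk hc hg hcob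

end Pool.Agent.Helper48.MX
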