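import Mathlib
import Pool.Agent.Helper48.MX.Block

/-!
# The variance of a block and the two out of three lemma
-/

set_option autoImplicit false

open MeasureTheory Finset
open scoped ComplexConjugate

namespace Pool.Agent.Helper48.MX

variable {Ω : Type*} {ι : Type*} [MeasurableSpace Ω] {μ : Measure Ω} [IsProbabilityMeasure μ]
  {u : ι → Ω → ℂ}

/-- the integral of the deviation in terms of the correlations -/
theorem integral_dev (hm : ∀ i, Measurable (u i)) (hu : ∀ i x, ‖u i x‖ ≤ 1) {c : ℂ} (hc : c ≠ 0)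
    {F : Finset ι} (hF : F.Nonempty) (h1 : ∀ p ∈ F, ∫ x, u p x ∂μ = c) :
    ((∫ x, dev u c F x ∂μ : ℝ) : ℂ) =
      (∑ p ∈ F, ∑ q ∈ F, ((∫ x, u p x * conj (u q x) ∂μ) - c * conj c)) /
        ((F.card : ℂ) ^ 2 * (c * conj c)) := by
  have hN : (F.card : ℂ) ≠ 0 := by exact_mod_cast hF.card_pos.ne'
  have hcc : conj c ≠ 0 := by simpa using hc
  have hi : ∀ p, Integrable (u p) μ := fun p => integrable_of_bdd (hm p) (hu p)
  have hic : ∀ p, Integrable (fun x => conj (u p x)) μ := fun p =>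
    integrable_of_bdd (Complex.continuous_conj.measurable.comp (hm p)) (C := 1) fun x => by
      rw [RCLike.norm_conj]; exact hu p x
  have hii : ∀ p q, Integrable (fun x => u p x * conj (u q x)) μ := fun p q =>
    integrable_of_bdd ((hm p).mul (Complex.continuous_conj.measurable.comp (hm q))) (C := 1)
      fun x => by
        rw [norm_mul, RCLike.norm_conj]
        exact mul_le_one₀ (hu p x) (norm_nonneg _) (hu q x)
  have hdev : ∀ x, (dev u c F x : ℂ) = (∑ p ∈ F, ∑ q ∈ F,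
      (u p x * conj (u q x) / (c * conj c) - u p x / c - conj (u q x) / conj c + 1)) /
        (F.card : ℂ) ^ 2 := by
    intro x
    have h2 : (dev u c F x : ℂ) = (avg u F x / c - 1) * conj (avg u F x / c - 1) := by
      rw [Complex.mul_conj, dev, Complex.normSq_eq_norm_sq]
    have h3 : avg u F x / c - 1 = (∑ p ∈ F, (u p x / c - 1)) / (F.card : ℂ) := by
      rw [eq_div_iff hN, Finset.sum_sub_distrib, ← Finset.sum_div, Finset.sum_const, nsmul_eq_mul,
        avg]
      field_simp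
    rw [h2, h3, map_div₀, map_natCast, div_mul_div_comm, ← pow_two, map_sum, Finset.sum_mul_sum]
    congr 1
    refine Finset.sum_congr rfl fun p _ => Finset.sum_congr rfl fun q _ => ?_
    rw [map_sub, map_div₀, map_one]
    field_simp
    ring
  rw [← integral_complex_ofReal]
  simp only [hdev]
  have hterm : ∀ p q, Integrable (fun x => u p x * conj (u q x) / (c * conj c) - u p x / c -
      conj (u q x) / conj c + 1) μ := fun p q =>
    (((((hii p q).div_const _).sub ((hi p).div_const _)).sub ((hic q).div_const _)).add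
      (integrable_const 1))
  rw [integral_div, integral_finsetSum _ fun p _ => integrable_finsetSum _ fun q _ => hterm p q]
  have hval : ∀ p ∈ F, ∀ q ∈ F, ∫ x, (u p x * conj (u q x) / (c * conj c) - u p x / c -
      conj (u q x) / conj c + 1) ∂μ = ((∫ x, u p x * conj (u q x) ∂μ) - c * conj c) /
        (c * conj c) := by
    intro p hp q hq
    have e1 : ∫ x, (u p x * conj (u q x) / (c * conj c) - u p x / c -
        conj (u q x) / conj c + 1) ∂μ =
        (∫ x, (u p x * conj (u q x) / (c * conj c) - u p x / c -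
          conj (u q x) / conj c) ∂μ) + ∫ x, (1 : ℂ) ∂μ :=
      integral_add (((((hii p q).div_const _).sub ((hi p).div_const _)).sub
        ((hic q).div_const _))) (integrable_const 1)
    have e2 : ∫ x, (u p x * conj (u q x) / (c * conj c) - u p x / c -
        conj (u q x) / conj c) ∂μ =
        (∫ x, (u p x * conj (u q x) / (c * conj c) - u p x / c) ∂μ) -
          ∫ x, conj (u q x) / conj c ∂μ :=
      integral_sub ((((hii p q).div_const _).sub ((hi p).div_const _))) ((hic q).div_const _)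
    have e3 : ∫ x, (u p x * conj (u q x) / (c * conj c) - u p x / c) ∂μ =
        (∫ x, u p x * conj (u q x) / (c * conj c) ∂μ) - ∫ x, u p x / c ∂μ :=
      integral_sub ((hii p q).div_const _) ((hi p).div_const _)
    rw [e1, e2, e3, integral_div, integral_div, integral_div, h1 p hp, integral_conj, h1 q hq]
    simp only [integral_const, probReal_univ, one_smul]
    field_simp
    ring
  have hsum : ∑ p ∈ F, ∫ x, ∑ q ∈ F, (u p x * conj (u q x) / (c * conj c) - u p x / c -
      conj (u q x) / conj c + 1) ∂μ = ∑ p ∈ F, ∑ q ∈ F,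
        ((∫ x, u p x * conj (u q x) ∂μ) - c * conj c) / (c * conj c) := by
    refine Finset.sum_congr rfl fun p hp => ?_
    rw [integral_finsetSum _ fun q _ => hterm p q]
    exact Finset.sum_congr rfl fun q hq => hval p hp q hq
  rw [hsum]
  simp only [← Finset.sum_div]
  rw [div_div, mul_comm (c * conj c)]

/-- The variance of a block with summable correlations. -/
theorem integral_dev_le (hm : ∀ i, Measurable (u i)) (hu : ∀ i x, ‖u i x‖ ≤ 1) {c : ℂ} (hc : c ≠ 0)
    {F : Finset ι} (hF : F.Nonempty) (h1 : ∀ p ∈ F, ∫ x, u p x ∂μ = c) {b : ι → ℤ}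
    (hb : Set.InjOn b F) {C β : ℝ} (hC : 0 ≤ C) (hβ : 1 < β)
    (h2 : ∀ p ∈ F, ∀ q ∈ F, ‖(∫ x, u p x * conj (u q x) ∂μ) - c * conj c‖ ≤
      C * (1 + |((b p - b q : ℤ) : ℝ)|) ^ (-β)) :
    ∫ x, dev u c F x ∂μ ≤ C * (∑' j : ℤ, (1 + |(j : ℝ)|) ^ (-β)) / (‖c‖ ^ 2 * F.card) := by
  have hFc : (0 : ℝ) < F.card := by exact_mod_cast hF.card_pos
  have hcn : 0 < ‖c‖ := norm_pos_iff.2 hc
  have hsm : Summable fun j : ℤ => (1 + |(j : ℝ)|) ^ (-β) := by
    have h3 : Summable fun n : ℕ => (1 + (n : ℝ)) ^ (-β) := by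
      have h4 := (Real.summable_nat_rpow (p := -β)).2 (by linarith)
      have h5 := (summable_nat_add_iff 1).2 h4
      refine h5.congr fun n => ?_
      push_cast
      rw [add_comm]
    refine Summable.of_nat_of_neg ?_ ?_
    · refine h3.congr fun n => ?_
      simp
    · refine h3.congr fun n => ?_
      simp
  have h3 : ‖((∫ x, dev u c F x ∂μ : ℝ) : ℂ)‖ ≤
      C * (∑' j : ℤ, (1 + |(j : ℝ)|) ^ (-β)) / (‖c‖ ^ 2 * F.card) := by
    rw [integral_dev hm hu hc hF h1, norm_div, norm_mul, norm_pow, Complex.norm_natCast, norm_mul,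
      RCLike.norm_conj, div_le_div_iff₀ (by positivity) (by positivity)]
    have h4 : ‖∑ p ∈ F, ∑ q ∈ F, ((∫ x, u p x * conj (u q x) ∂μ) - c * conj c)‖ ≤
        F.card * (C * ∑' j : ℤ, (1 + |(j : ℝ)|) ^ (-β)) := by
      refine (norm_sum_le _ _).trans ?_
      rw [← nsmul_eq_mul, ← Finset.sum_const]
      refine Finset.sum_le_sum fun p hp => ?_
      refine (norm_sum_le _ _).trans ?_
      refine (Finset.sum_le_sum fun q hq => h2 p hp q hq).trans ?_
      rw [← Finset.mul_sum]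
      refine mul_le_mul_of_nonneg_left ?_ hC
      have h5 : ∑ q ∈ F, (1 + |((b p - b q : ℤ) : ℝ)|) ^ (-β) =
          ∑ j ∈ F.image (fun q => b p - b q), (1 + |(j : ℝ)|) ^ (-β) := by
        rw [Finset.sum_image]
        intro q hq q' hq' h
        exact hb hq hq' (by simpa using h)
      rw [h5]
      exact hsm.sum_le_tsum _ fun j _ => by positivity
    have h6 : 0 ≤ ‖c‖ ^ 2 * (F.card : ℝ) := by positivity
    calc _ ≤ (F.card * (C * ∑' j : ℤ, (1 + |(j : ℝ)|) ^ (-β))) * (‖c‖ ^ 2 * F.card) :=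
          mul_le_mul_of_nonneg_right h4 h6
      _ = _ := by ring
  rw [Complex.norm_real, Real.norm_eq_abs] at h3
  exact (le_abs_self _).trans h3

/-- **Two out of three.**  Outside a set of small measure at most one of the three averages is far
from `c`. -/
theorem two_of_three (hm : ∀ i, Measurable (u i)) (hu : ∀ i x, ‖u i x‖ ≤ 1) (c : ℂ)
    (F : Fin 3 → Finset ι) :
    μ.real {x | ∃ i j, i < j ∧ 1 / 8 ≤ ‖avg u (F i) x / c - 1‖ ∧
      1 / 8 ≤ ‖avg u (F j) x / c - 1‖} ≤
      4096 * ((∫ x, dev u c (F 0) x * dev u c (F 1) x ∂μ) +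
        (∫ x, dev u c (F 0) x * dev u c (F 2) x ∂μ) +
        ∫ x, dev u c (F 1) x * dev u c (F 2) x ∂μ) := by
  have hint : ∀ G G' : Finset ι, Integrable (fun x => dev u c G x * dev u c G' x) μ := by
    intro G G'
    refine Integrable.of_bound ((measurable_dev hm c G).mul
      (measurable_dev hm c G')).aestronglyMeasurable
      ((1 / ‖c‖ + 1) ^ 2 * (1 / ‖c‖ + 1) ^ 2) (Filter.Eventually.of_forall fun x => ?_)
    rw [Real.norm_of_nonneg (mul_nonneg (dev_nonneg _ _ _ _) (dev_nonneg _ _ _ _))]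
    exact mul_le_mul (dev_le hu c G x) (dev_le hu c G' x) (dev_nonneg _ _ _ _) (by positivity)
  have hmark : ∀ G G' : Finset ι, μ.real {x | 1 / 8 ≤ ‖avg u G x / c - 1‖ ∧
      1 / 8 ≤ ‖avg u G' x / c - 1‖} ≤ 4096 * ∫ x, dev u c G x * dev u c G' x ∂μ := by
    intro G G'
    have h1 := mul_meas_ge_le_integral_of_nonneg (μ := μ)
      (f := fun x => dev u c G x * dev u c G' x)
      (Filter.Eventually.of_forall fun x => mul_nonneg (dev_nonneg _ _ _ _) (dev_nonneg _ _ _ _))
      (hint G G') (1 / 4096)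
    have h2 : μ.real {x | 1 / 8 ≤ ‖avg u G x / c - 1‖ ∧ 1 / 8 ≤ ‖avg u G' x / c - 1‖} ≤
        μ.real {x | 1 / 4096 ≤ dev u c G x * dev u c G' x} := by
      refine measureReal_mono ?_ (measure_ne_top _ _)
      rintro x ⟨h3, h4⟩
      show 1 / 4096 ≤ dev u c G x * dev u c G' x
      have h5 : (1 / 64 : ℝ) ≤ dev u c G x := by
        unfold dev
        nlinarith
      have h6 : (1 / 64 : ℝ) ≤ dev u c G' x := by
        unfold dev
        nlinarith
      nlinarith
    change 1 / 4096 * μ.real {x | 1 / 4096 ≤ dev u c G x * dev u c G' x} ≤ _ at h1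
    linarith
  have hsub : {x | ∃ i j : Fin 3, i < j ∧ 1 / 8 ≤ ‖avg u (F i) x / c - 1‖ ∧
      1 / 8 ≤ ‖avg u (F j) x / c - 1‖} ⊆
      ({x | 1 / 8 ≤ ‖avg u (F 0) x / c - 1‖ ∧ 1 / 8 ≤ ‖avg u (F 1) x / c - 1‖} ∪
       {x | 1 / 8 ≤ ‖avg u (F 0) x / c - 1‖ ∧ 1 / 8 ≤ ‖avg u (F 2) x / c - 1‖}) ∪
       {x | 1 / 8 ≤ ‖avg u (F 1) x / c - 1‖ ∧ 1 / 8 ≤ ‖avg u (F 2) x / c - 1‖} := by
    rintro x ⟨i, j, hij, hi, hj⟩
    fin_cases i <;> fin_cases j
    · exact absurd hij (by decide)
    · exact Or.inl (Or.inl ⟨hi, hj⟩)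
    · exact Or.inl (Or.inr ⟨hi, hj⟩)
    · exact absurd hij (by decide)
    · exact absurd hij (by decide)
    · exact Or.inr ⟨hi, hj⟩
    · exact absurd hij (by decide)
    · exact absurd hij (by decide)
    · exact absurd hij (by decide)
  have h0 := measureReal_mono hsub (measure_ne_top μ _)
  have h1 := measureReal_union_le (μ := μ)
    ({x | 1 / 8 ≤ ‖avg u (F 0) x / c - 1‖ ∧ 1 / 8 ≤ ‖avg u (F 1) x / c - 1‖} ∪
       {x | 1 / 8 ≤ ‖avg u (F 0) x / c - 1‖ ∧ 1 / 8 ≤ ‖avg u (F 2) x / c - 1‖})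
    {x | 1 / 8 ≤ ‖avg u (F 1) x / c - 1‖ ∧ 1 / 8 ≤ ‖avg u (F 2) x / c - 1‖}
  have h2 := measureReal_union_le (μ := μ)
    {x | 1 / 8 ≤ ‖avg u (F 0) x / c - 1‖ ∧ 1 / 8 ≤ ‖avg u (F 1) x / c - 1‖}
    {x | 1 / 8 ≤ ‖avg u (F 0) x / c - 1‖ ∧ 1 / 8 ≤ ‖avg u (F 2) x / c - 1‖}
  have h3 := hmark (F 0) (F 1)
  have h4 := hmark (F 0) (F 2)
  have h5 := hmark (F 1) (F 2)
  linarith

end Pool.Agent.Helper48.MX
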